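import Pool.Agent.Helper47.FLG.Fun

/-!
# Project FLG, packet SOF: the second soft estimate at the function level
-/

set_option autoImplicit false

namespace Pool.Agent.Helper47.FLG

open Finset Pool.Agent.Helper47.RFn Pool.Agent.Helper73.RFn

theorem sof_one_mem (n : ℕ) : (one : Ix n → Ix n → ℝ) ∈ OO n := by
  intro a b
  unfold one
  rw [Finset.sum_eq_single a]
  · simp [eq_comm]
  · intro c _ hc
    simp [Ne.symm hc]
  · simp

theorem p_SOF (hSFB : G_SFB) (hINVF : G_INVF) (hMOD : Goal_MOD) (hFLB : Goal_FLB)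
    (hNRO : Goal_NRO) (hNIN : G_NIN) (hDCT : G_DCT) (hFJS : FjsStmt) : SofStmt := by
  intro n hn ε hε
  obtain ⟨K, hK, hS⟩ := hSFB n hn ε hε
  obtain ⟨C, -, hI⟩ := hINVF n hn
  refine ⟨K, hK, ?_⟩
  intro T l0 A θ hT hl0 hfl hin t ht0 htT x hx ι hι z' w'
  have hsub : Set.Ioo 0 T ⊆ Set.Ico 0 T := Set.Ioo_subset_Ico_self
  obtain ⟨M, hM⟩ := hMOD n T hT
  obtain ⟨hA, hθ, -⟩ := hFJS n T _ A θ hT hsub hfl
  have hA' : MJ T A := fun i j => ⟨(hA i j).cd, (hA i j).hom⟩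
  have hθ' : MJ T θ := fun i j => ⟨(hθ i j).cd, (hθ i j).hom⟩
  obtain ⟨-, hFull, hRF, hdic, -, -, -⟩ := hFLB n T hT M hM _ A θ hsub hfl hA' hθ'
  obtain ⟨hbdR, -, -, -, -, -⟩ := hNRO n T hT M hM A θ hfl hA' hθ'
  have hbd : ∀ i j k l, (M.flB A θ).Bd0 ((M.flB A θ).R i j k l) := fun i j k l => hbdR [] i j k l
  have hini : IniF (M.flB A θ) l0 := hNIN n T hT M hM A θ hfl hA' hθ' l0 hin
  obtain ⟨hCone, hFG⟩ := hI T (M.flB A θ) hFull hRF hbd l0 hl0 hini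
  have hlam : ∀ z t, 0 < (M.flB A θ).ev z t (M.flB A θ).lam :=
    fun z t => lt_of_lt_of_le hl0 (hCone z t).1
  have hSf := hS T (M.flB A θ) hFull hRF hbd hlam hFG
  have hr : 0 < ‖x‖⁻¹ := inv_pos.2 (norm_pos_iff.2 hx)
  obtain ⟨z, hz1, -⟩ : ∃ z : M.Z, M.pt z = (‖x‖⁻¹ : ℝ) • x ∧ M.fr z = one := by
    refine hM.surj _ _ ?_ (sof_one_mem n)
    rw [norm_smul, norm_inv, norm_norm, inv_mul_cancel₀ (norm_ne_zero_iff.2 hx)]
  obtain ⟨hD1, hD2⟩ := hDCT n T hT M hM _ A θ hsub hfl hA' hθ'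
  obtain ⟨n1, n2, n3⟩ := hD2 t ht0 htT x hx
  have hev : (M.flB A θ).ev z ⟨t, ht0, htT⟩ (M.flB A θ).lam = lamf (A t) (θ t) x := by
    rw [(hdic z ⟨t, ht0, htT⟩).1, hz1, n3]
  have key := (hD1 z ⟨t, ht0, htT⟩ (fun S => ∀ z' w' : Fin n → ℂ,
    Real.sqrt (hh S) * qf (Id4 n) z' w' ≤
      (ε * lamf (A t) (θ t) x + K / t) * qf (Id4 n) z' w' + K * qf S z' w')).1.1 (by
      intro ι' hι' z' w'
      have := hSf z ⟨t, ht0, htT⟩ ι' hι' z' w'
      rw [hev] at this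
      exact this)
  have hι2 : Iso (fun a => nfc (A t) a (M.pt z)) ι := by
    have e : (fun a => nfc (A t) a (M.pt z)) = fun a => nfc (A t) a x := by
      funext a
      rw [hz1, n1 a]
    rw [e]
    exact hι
  have h3 := key ι hι2 z' w'
  have e2 : RT (A t) (θ t) (M.pt z) = RT (A t) (θ t) x := by rw [hz1, n2]
  simp only [e2] at h3
  exact h3

end Pool.Agent.Helper47.FLG
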